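import Pool.Agent.Helper47.SR.Goals

/-!
Packet SR-E3 (MP_0130f7_co, helper47): sets with stabiliser of order at least 3.
-/

namespace Pool.Agent.Helper47.SR

open Finset

namespace E3

theorem inj_of_semireg {n : ℕ} {G : Grp n} (hG : Semireg G) {γ δ : Equiv.Perm (Fin n)}
    (hγ : γ ∈ G) (hδ : δ ∈ G) (x : Fin n) (h : γ x = δ x) : γ = δ := by
  by_contra hne
  have h1 : δ⁻¹ * γ ∈ G := G.mul_mem (G.inv_mem hδ) hγ
  have h2 : δ⁻¹ * γ ≠ 1 := by
    intro h3
    apply hne
    have := inv_mul_eq_one.mp h3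
    exact this.symm
  apply hG _ h1 h2 x
  rw [Equiv.Perm.mul_apply, h]
  simp

theorem card_le {n : ℕ} {G : Grp n} (hG : Semireg G) (hn : 1 ≤ n) : Nat.card G ≤ n := by
  have h : Function.Injective (fun γ : G => (γ : Equiv.Perm (Fin n)) ⟨0, hn⟩) := by
    intro γ δ h
    apply Subtype.ext
    exact inj_of_semireg hG γ.2 δ.2 _ h
  have := Nat.card_le_card_of_injective _ h
  simpa using this

theorem wt_le {n : ℕ} {G : Grp n} (hG : Semireg G) (A : Finset (Fin n)) (hA : 1 ≤ #A) :
    1 + wt G A ≤ #A := by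
  classical
  obtain ⟨a, ha⟩ := Finset.card_pos.mp hA
  have h : wt G A ≤ #(A.erase a) := by
    unfold wt
    apply Finset.card_le_card_of_injOn (fun γ => γ a)
    · intro γ hγ
      simp only [Finset.coe_filter, Finset.mem_univ, true_and, Set.mem_ofPred_eq] at hγ
      obtain ⟨h1, h2, h3⟩ := hγ
      simp only [Finset.coe_erase, Set.mem_sdiff, Finset.mem_coe, Set.mem_singleton_iff]
      refine ⟨?_, hG γ h1 h2 a⟩
      rw [← h3]
      exact Finset.mem_map.mpr ⟨a, ha, rfl⟩
    · intro γ hγ δ hδ h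
      simp only [Finset.coe_filter, Finset.mem_univ, true_and, Set.mem_ofPred_eq] at hγ hδ
      exact inj_of_semireg hG hγ.1 hδ.1 a h
  rw [Finset.card_erase_of_mem ha] at h
  omega

theorem mv_mul {n : ℕ} (γ δ : Equiv.Perm (Fin n)) (A : Finset (Fin n)) :
    mv (γ * δ) A = mv γ (mv δ A) := by
  ext x
  simp only [mv, Finset.mem_map, Equiv.toEmbedding_apply, Equiv.Perm.mul_apply]
  constructor
  · rintro ⟨a, ha, rfl⟩
    exact ⟨δ a, ⟨a, ha, rfl⟩, rfl⟩
  · rintro ⟨b, ⟨a, ha, rfl⟩, rfl⟩
    exact ⟨a, ha, rfl⟩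

theorem mv_one {n : ℕ} (A : Finset (Fin n)) : mv (1 : Equiv.Perm (Fin n)) A = A := by
  ext x
  simp only [mv, Finset.mem_map, Equiv.toEmbedding_apply, Equiv.Perm.one_apply, exists_eq_right]

theorem mv_closure {n : ℕ} (γ₁ γ₂ : Equiv.Perm (Fin n)) (A : Finset (Fin n))
    (h₁ : mv γ₁ A = A) (h₂ : mv γ₂ A = A) :
    ∀ γ ∈ Subgroup.closure {γ₁, γ₂}, mv γ A = A := by
  intro γ hγ
  induction hγ using Subgroup.closure_induction with
  | mem x hx =>
    rcases hx with rfl | hx
    · exact h₁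
    · rw [Set.mem_singleton_iff] at hx
      rw [hx]; exact h₂
  | one => exact mv_one A
  | mul x y _ _ hx hy => rw [mv_mul, hy, hx]
  | inv x _ hx =>
    have := mv_mul x⁻¹ x A
    rw [inv_mul_cancel, mv_one, hx] at this
    exact this.symm

end E3

open E3 in
theorem goal_E3 (hINVC : Goal_INVC) : Goal_E3 := by
  classical
  intro n G hG j hj
  -- the pairs
  set GF : Finset (Equiv.Perm (Fin n)) := univ.filter (fun γ => γ ∈ G) with hGF
  set PF : Finset (Equiv.Perm (Fin n) × Equiv.Perm (Fin n)) :=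
    (GF ×ˢ GF).filter (fun p => p.1 ≠ 1 ∧ p.2 ≠ 1 ∧ p.1 ≠ p.2) with hPF
  let I : Equiv.Perm (Fin n) × Equiv.Perm (Fin n) → Finset (Finset (Fin n)) := fun p =>
    (univ : Finset (Finset (Fin n))).filter (fun A => ∀ γ ∈ Subgroup.closure {p.1, p.2}, mv γ A = A)
  have hI : ∀ p ∈ PF, #(I p) ≤ 2 ^ (n / 3) := by
    intro p hp
    simp only [hPF, hGF, Finset.mem_filter, Finset.mem_product, Finset.mem_univ, true_and] at hp
    obtain ⟨⟨h1, h2⟩, h3, h4, h5⟩ := hp
    have hle : Subgroup.closure {p.1, p.2} ≤ G := by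
      rw [Subgroup.closure_le]
      intro x hx
      rcases hx with rfl | hx
      · exact h1
      · rw [Set.mem_singleton_iff] at hx
        rw [hx]; exact h2
    have hS : Semireg (Subgroup.closure {p.1, p.2}) := fun γ hγ => hG γ (hle hγ)
    have hc : 3 ≤ Nat.card (Subgroup.closure {p.1, p.2}) := by
      let f : Fin 3 → Subgroup.closure {p.1, p.2} := ![1, ⟨p.1, Subgroup.subset_closure (by simp)⟩,
        ⟨p.2, Subgroup.subset_closure (by simp)⟩]
      have hf : Function.Injective f := by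
        intro a b hab
        fin_cases a <;> fin_cases b <;> simp [f, Subtype.ext_iff] at hab ⊢
        · exact h3 hab.symm
        · exact h4 hab.symm
        · exact h3 hab
        · exact h5 hab
        · exact h4 hab
        · exact h5 hab.symm
      have := Nat.card_le_card_of_injective f hf
      simpa using this
    have := (hINVC n (Subgroup.closure {p.1, p.2}) hS).2
    refine (this).trans ?_
    apply Nat.pow_le_pow_right (by norm_num)
    exact Nat.div_le_div_left hc (by norm_num)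
  rcases Nat.eq_zero_or_pos n with hn | hn
  · subst hn
    have : lev 0 j = ∅ := by
      rw [lev, Finset.powersetCard_eq_empty]
      simpa using (show 0 < j by omega)
    rw [this]
    simp
  have hGc : #GF ≤ n := by
    have h1 : #GF = Nat.card G := by
      rw [hGF, Nat.card_eq_fintype_card]
      rw [Fintype.card_subtype]
    rw [h1]
    exact card_le hG hn
  have hPc : #PF ≤ n ^ 2 := by
    calc #PF ≤ #(GF ×ˢ GF) := Finset.card_filter_le _ _
      _ = #GF * #GF := Finset.card_product _ _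
      _ ≤ n * n := Nat.mul_le_mul hGc hGc
      _ = n ^ 2 := by ring
  have hsub : (lev n j).filter (fun A => 2 ≤ wt G A) ⊆ PF.biUnion I := by
    intro A hA
    rw [Finset.mem_filter] at hA
    obtain ⟨_, h2⟩ := hA
    unfold wt at h2
    obtain ⟨γ₁, h1, γ₂, h3, hne⟩ := Finset.one_lt_card.mp h2
    simp only [Finset.mem_filter, Finset.mem_univ, true_and] at h1 h3
    rw [Finset.mem_biUnion]
    refine ⟨(γ₁, γ₂), ?_, ?_⟩
    · simp only [hPF, hGF, Finset.mem_filter, Finset.mem_product, Finset.mem_univ, true_and]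
      exact ⟨⟨h1.1, h3.1⟩, h1.2.1, h3.2.1, hne⟩
    · simp only [I, Finset.mem_filter, Finset.mem_univ, true_and]
      exact mv_closure γ₁ γ₂ A h1.2.2 h3.2.2
  calc ∑ A ∈ (lev n j).filter (fun A => 2 ≤ wt G A), (1 + wt G A)
      ≤ ∑ A ∈ (lev n j).filter (fun A => 2 ≤ wt G A), n := by
        apply Finset.sum_le_sum
        intro A hA
        rw [Finset.mem_filter] at hA
        have hc : #A = j := (Finset.mem_powersetCard.mp hA.1).2
        have h1 := wt_le hG A (by rw [hc]; exact hj)
        have h2 : #A ≤ n := by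
          have := Finset.card_le_univ A
          simpa using this
        omega
    _ = #((lev n j).filter (fun A => 2 ≤ wt G A)) * n := by
        rw [Finset.sum_const, smul_eq_mul]
    _ ≤ #(PF.biUnion I) * n := Nat.mul_le_mul_right _ (Finset.card_le_card hsub)
    _ ≤ (∑ p ∈ PF, #(I p)) * n := Nat.mul_le_mul_right _ Finset.card_biUnion_le
    _ ≤ (∑ p ∈ PF, 2 ^ (n / 3)) * n := Nat.mul_le_mul_right _ (Finset.sum_le_sum hI)
    _ = #PF * 2 ^ (n / 3) * n := by rw [Finset.sum_const, smul_eq_mul]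
    _ ≤ n ^ 2 * 2 ^ (n / 3) * n :=
        Nat.mul_le_mul_right _ (Nat.mul_le_mul_right _ hPc)
    _ = n ^ 3 * 2 ^ (n / 3) := by ring
    _ ≤ 2 * n ^ 3 * 2 ^ (n / 3) := by
        apply Nat.mul_le_mul_right
        omega

end Pool.Agent.Helper47.SR
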