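import Pool.Agent.Helper75.SR.Goals2
import Pool.Agent.Helper54.SRD.Basic
import Pool.Agent.Helper13.SR.GEL
import Pool.Agent.Helper25.SR.GAlg

/-!
# MP_d08e19_gt: geodesics of `g + β ∑ η_a²` (packet SR-GGeo)
-/

namespace Pool.Agent.Helper10.SR

open scoped ContDiff Topology Manifold Matrix
open Set Real Pool.Agent.Helper54.SRD Pool.Agent.Helper75.SR

set_option synthInstance.maxSize 1000

section Loc

variable {E : Type} [NormedAddCommGroup E] [NormedSpace ℝ E] {U : Set E}

/-- `η_i` of the velocity of a geodesic has derivative zero. -/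
theorem eta_deriv (hel : GEL) (S : LocSas E U) {β : ℝ} (hβ : 0 ≤ β) (c : ℝ → E) (t : ℝ)
    (hU : c t ∈ U) (hg : IsGeoC (S.Gb β) c t) (i : Fin 3) :
    HasDerivAt (fun s => S.g (c s) (S.xi i (c s)) (deriv c s)) 0 t := by
  obtain ⟨h2, -, hEL⟩ := hg
  have hc : HasDerivAt c (deriv c t) t := (h2.differentiableAt (by norm_num)).hasDerivAt
  have hdc : HasDerivAt (deriv c) (deriv (deriv c) t) t := by
    have h3 : ContDiffAt ℝ 1 (deriv c) t := by
      have h4 : ContDiffAt ℝ 1 (fderiv ℝ c) t := h2.fderiv_right (by norm_num)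
      have h5 : deriv c = fun s => fderiv ℝ c s 1 := by
        funext s
        exact (fderiv_apply_one_eq_deriv).symm
      rw [h5]
      exact h4.clm_apply contDiffAt_const
    exact (h3.differentiableAt (by norm_num)).hasDerivAt
  obtain ⟨C, hC, hC'⟩ := Pool.Agent.Helper13.SR.hasFDerivAt_eta S i hU
  have h6 := (hC.comp_hasDerivAt t hc).clm_apply hdc
  have h7 := hel E U S β hβ (c t) hU (deriv c t) (deriv (deriv c) t) (by
    intro V
    have h8 := hEL V
    linarith)
  have h8 := h7.2 i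
  have hk := S.killing (c t) hU i (deriv c t) (deriv c t)
  rw [S.g_symm (c t) hU (deriv c t)] at hk
  have hk' : S.g (c t) (S.phi i (c t) (deriv c t)) (deriv c t) = 0 := by
    have : S.g (c t) (phiOf S.Gam (S.xi i) (c t) (deriv c t)) (deriv c t) = 0 := by linarith
    exact this
  refine h6.congr_deriv ?_
  rw [hC', hk']
  rw [map_add] at h8
  simp only [Function.comp_apply] at h8 ⊢
  linarith

end Loc

section Man

variable {E : Type} [NormedAddCommGroup E] [NormedSpace ℝ E]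
variable {M : Type} [TopologicalSpace M] [ChartedSpace E M]

theorem bx_mem {γ : ℝ → M} {t : ℝ} {x : M} (h : γ t ∈ src E x) : bx E γ x t ∈ tgt E x :=
  ch_mem h

theorem eventually_bx {γ : ℝ → M} {t : ℝ} {x : M} (hc : ContinuousAt γ t)
    (hx : γ t ∈ src E x) (y : M) : bx E γ y =ᶠ[𝓝 t] fun s => tr x y (bx E γ x s) := by
  filter_upwards [hc.preimage_mem_nhds ((isOpen_src (E := E) x).mem_nhds hx)] with s hs
  exact (tr_ch (y := y) hs).symm

variable [IsManifold 𝓘(ℝ, E) ∞ M]

theorem deriv_bx {γ : ℝ → M} {t : ℝ} {x y : M} (hc : ContinuousAt γ t)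
    (hx : γ t ∈ src E x) (hy : γ t ∈ src E y) (hd : DifferentiableAt ℝ (bx E γ x) t) :
    deriv (bx E γ y) t = fderiv ℝ (tr x y) (bx E γ x t) (deriv (bx E γ x) t) := by
  rw [(eventually_bx hc hx y).deriv_eq]
  have h1 : HasFDerivAt (tr x y : E → E) (fderiv ℝ (tr x y) (bx E γ x t)) (bx E γ x t) :=
    (differentiableAt_tr (mem_ov hx hy)).hasFDerivAt
  exact (h1.comp_hasDerivAt t hd.hasDerivAt).deriv

theorem eta_eq (S : ASas E M) {γ : ℝ → M} {t : ℝ} {x y : M} (hc : ContinuousAt γ t)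
    (hx : γ t ∈ src E x) (hy : γ t ∈ src E y) (hd : DifferentiableAt ℝ (bx E γ x) t)
    (i : Fin 3) :
    (S.loc y).g (bx E γ y t) ((S.loc y).xi i (bx E γ y t)) (deriv (bx E γ y) t) =
      (S.loc x).g (bx E γ x t) ((S.loc x).xi i (bx E γ x t)) (deriv (bx E γ x) t) := by
  have h0 : bx E γ y t = tr x y (bx E γ x t) := (tr_ch (y := y) hx).symm
  have hz : bx E γ x t ∈ ov x y := mem_ov hx hy
  rw [deriv_bx hc hx hy hd, h0, ← S.xi_trans x y _ hz, ← S.g_trans x y _ hz]

end Man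

theorem ggeo (hel : GEL) : GGeo := by
  intro E _ _ _ M _ _ _ S β hβ γ a b hab hgeo
  have hd : ∀ t ∈ Icc a b, ∀ x : M, γ t ∈ src E x → DifferentiableAt ℝ (bx E γ x) t :=
    fun t ht x hx => ((hgeo t ht).2 x hx).1.differentiableAt (by norm_num)
  set F : Fin 3 → ℝ → ℝ := fun i t => (S.loc (γ t)).g (bx E γ (γ t) t)
    ((S.loc (γ t)).xi i (bx E γ (γ t) t)) (deriv (bx E γ (γ t)) t) with hF
  have hFd : ∀ i, ∀ t ∈ Icc a b, HasDerivWithinAt (F i) 0 (Icc a b) t := by
    intro i t ht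
    have h1 : HasDerivAt (fun s => (S.loc (γ t)).g (bx E γ (γ t) s)
        ((S.loc (γ t)).xi i (bx E γ (γ t) s)) (deriv (bx E γ (γ t)) s)) 0 t :=
      eta_deriv hel (S.loc (γ t)) hβ (bx E γ (γ t)) t (bx_mem (mem_src _))
        ((hgeo t ht).2 (γ t) (mem_src _)) i
    refine h1.hasDerivWithinAt.congr_of_eventuallyEq_of_mem ?_ ht
    have h2 : ∀ᶠ s in 𝓝 t, γ s ∈ src E (γ t) :=
      (hgeo t ht).1.preimage_mem_nhds (src_mem_nhds (γ t))
    filter_upwards [mem_nhdsWithin_of_mem_nhds h2, self_mem_nhdsWithin] with s hs hs'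
    exact eta_eq S (hgeo s hs').1 hs (mem_src _) (hd s hs' _ hs) i
  have hconst : ∀ i, ∀ t ∈ Icc a b, F i t = F i a := by
    intro i
    refine constant_of_has_deriv_right_zero (fun t ht => (hFd i t ht).continuousWithinAt) ?_
    intro t ht
    exact (hFd i t ⟨ht.1, ht.2.le⟩).mono_of_mem_nhdsWithin (Icc_mem_nhdsGE_of_mem ht)
  refine ⟨fun i => F i a, ?_⟩
  intro t ht
  refine ⟨(hgeo t ht).1, ?_⟩
  intro x hx
  obtain ⟨h1, h2, h3⟩ := (hgeo t ht).2 x hx
  have hW : ∀ i, (S.loc x).g (bx E γ x t) ((S.loc x).xi i (bx E γ x t)) (deriv (bx E γ x) t)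
      = F i a := by
    intro i
    rw [← hconst i t ht]
    exact (eta_eq S (hgeo t ht).1 hx (mem_src _) (hd t ht x hx) i).symm
  refine ⟨h1, h2, hW, ?_⟩
  have h7 := hel E (tgt E x) (S.loc x) β hβ (bx E γ x t) (bx_mem hx) (deriv (bx E γ x) t)
    (deriv (deriv (bx E γ x)) t) (by
      intro V
      have h8 := h3 V
      have h9 : (S.met β hβ).G x = (S.loc x).Gb β := rfl
      rw [h9] at h8
      show fderiv ℝ ((S.loc x).Gb β) (bx E γ x t) (deriv (bx E γ x) t) (deriv (bx E γ x) t) V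
        + (S.loc x).Gb β (bx E γ x t) (deriv (deriv (bx E γ x)) t) V
        = (1 / 2) * fderiv ℝ ((S.loc x).Gb β) (bx E γ x t) V (deriv (bx E γ x) t)
          (deriv (bx E γ x) t)
      rw [add_comm]
      exact h8)
  rw [h7.1]
  simp only [hW]

theorem rot_phi {E : Type} [NormedAddCommGroup E] [NormedSpace ℝ E] {U : Set E}
    (S S' : LocSas E U) (A : Matrix (Fin 3) (Fin 3) ℝ) (hG : S'.Gam = S.Gam)
    (hx : ∀ a, S'.xi a = rotXi A S.xi a) {z : E} (hz : z ∈ U) (a : Fin 3) (v : E) :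
    S'.phi a z v = ∑ b, A a b • S.phi b z v := by
  have h1 : HasFDerivAt (rotXi A S.xi a) (∑ b, A a b • fderiv ℝ (S.xi b) z) z := by
    have h2 := HasFDerivAt.fun_sum (u := Finset.univ) (fun b _ =>
      (Pool.Agent.Helper13.SR.hasFDerivAt_xi S b hz).const_smul (A a b))
    exact h2
  have h3 : S'.phi a z v = -(fderiv ℝ (rotXi A S.xi a) z v + S.Gam z v (rotXi A S.xi a z)) := by
    unfold LocSas.phi
    rw [phiOf_apply, hG, hx a]
  rw [h3, h1.fderiv]
  unfold LocSas.phi rotXi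
  simp only [phiOf_apply, map_sum, map_smul, _root_.sum_apply,
    _root_.smul_apply]
  rw [← Finset.sum_add_distrib, ← Finset.sum_neg_distrib]
  refine Finset.sum_congr rfl fun b _ => ?_
  rw [smul_neg, smul_add]

theorem ggeoRot : GGeoRot := by
  intro E _ _ _ M _ _ _ S S' A β γ a b W hA hS hgeo t ht
  refine ⟨(hgeo t ht).1, ?_⟩
  intro x hx
  obtain ⟨h1, h2, h3, h4⟩ := (hgeo t ht).2 x hx
  obtain ⟨e1, e2, e3, e4⟩ := hS x
  have hz : bx E γ x t ∈ tgt E x := bx_mem hx
  refine ⟨h1, ?_, ?_, ?_⟩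
  · rw [e4 β]
    exact h2
  · intro i
    rw [e1, e3 i]
    unfold rotXi
    rw [map_sum, _root_.sum_apply]
    refine Finset.sum_congr rfl fun j _ => ?_
    rw [map_smul, _root_.smul_apply, h3 j, smul_eq_mul]
  · rw [e2, h4]
    congr 1
    have hA1 : Aᵀ * A = 1 := mul_eq_one_comm.mp hA.1
    have hA2 : ∀ j k, ∑ i, A i j * A i k = if j = k then 1 else 0 := by
      intro j k
      have := congrFun (congrFun hA1 j) k
      rw [Matrix.mul_apply, Matrix.one_apply] at this
      simpa [Matrix.transpose_apply] using this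
    have h5 : ∀ i, (∑ j, A i j * W j) • (S'.loc x).phi i (bx E γ x t) (deriv (bx E γ x) t)
        = ∑ j, ∑ k, (A i j * A i k * W j) • (S.loc x).phi k (bx E γ x t) (deriv (bx E γ x) t) := by
      intro i
      rw [rot_phi (S.loc x) (S'.loc x) A e2 e3 hz, Finset.sum_smul]
      refine Finset.sum_congr rfl fun j _ => ?_
      rw [Finset.smul_sum]
      refine Finset.sum_congr rfl fun k _ => ?_
      rw [smul_smul]
      congr 1
      ring
    simp only [h5]
    rw [Finset.sum_comm]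
    refine Finset.sum_congr rfl fun j _ => ?_
    rw [Finset.sum_comm]
    have h6 : ∀ k, ∑ i, (A i j * A i k * W j) • (S.loc x).phi k (bx E γ x t) (deriv (bx E γ x) t)
        = ((if j = k then 1 else 0) * W j) • (S.loc x).phi k (bx E γ x t) (deriv (bx E γ x) t) := by
      intro k
      rw [← Finset.sum_smul, ← Finset.sum_mul, hA2]
    simp only [h6]
    simp

end Pool.Agent.Helper10.SR
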