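import Pool.Agent.Helper75.SR.Goals1

/-! Packet SR-GOne of MP_d08e19_gt: the second variation of one explicit field. -/

set_option autoImplicit false

namespace Pool.Agent.Helper10.SR

open Real Pool.Agent.Helper75.SR

theorem qq_one (β τ w k q s c : ℝ) (hkq : k * q = 1) (Rm : Fin 3 → Fin 3 → ℝ) :
    qq β τ w Rm (2 * ((1 + β) * w) * q * (1 - c)) (2 * ((1 + β) * w) * s)
      ![s, 0, 0] ![k * c, 0, 0] ![-2 * τ * q * (1 - c), 0, 0] ![-2 * τ * s, 0, 0]
    = k ^ 2 * c ^ 2 + (1 - Rm 0 0) * τ ^ 2 * s ^ 2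
      + (4 * ((1 + β) * w) ^ 2 + 4 * τ ^ 2) * (c - c ^ 2) := by
  simp only [qq, Fin.sum_univ_three, Matrix.cons_val_zero, Matrix.cons_val_one,
    Matrix.cons_val]
  linear_combination ((c * (1 - c)) * (2 * (2 * ((1 + β) * w) * (2 * (1 + β) * w - w) + 2 * τ ^ 2)
    - 4 * (β * w) * ((1 + β) * w))) * hkq

theorem gone : GOne := by
  intro β τ w L K hL hK Φ hΦ h
  have hpi := Real.pi_pos
  obtain ⟨k, hk⟩ : ∃ k : ℝ, k = 2 * π / L := ⟨_, rfl⟩
  obtain ⟨q, hq⟩ : ∃ q : ℝ, q = L / (2 * π) := ⟨_, rfl⟩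
  have hkq : k * q = 1 := by
    rw [hk, hq]
    field_simp
  have hk0 : 0 < k := by
    rw [hk]
    positivity
  have hkL : k * L = 2 * π := by
    rw [hk]
    field_simp
  rw [← hk]
  obtain ⟨F, hF⟩ : ∃ F : ℝ → ℝ, F = fun x => k ^ 2 * cos x ^ 2 + (1 + K) * τ ^ 2 * sin x ^ 2
      + (4 * ((1 + β) * w) ^ 2 + 4 * τ ^ 2) * (cos x - cos x ^ 2) := ⟨_, rfl⟩
  have hFc : Continuous F := by
    rw [hF]
    fun_prop
  have hle : ∀ t ∈ Set.Icc (0:ℝ) L, Φ t ≤ F (k * t) := by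
    intro t _
    obtain ⟨Rm, hRm, hΦt⟩ := h t
    rw [← hk, ← hq, qq_one β τ w k q _ _ hkq Rm] at hΦt
    rw [hΦt, hF]
    have h1 : -K ≤ Rm 0 0 := (abs_le.1 hRm).1
    have h2 : (1 - Rm 0 0) * τ ^ 2 * sin (k * t) ^ 2 ≤ (1 + K) * τ ^ 2 * sin (k * t) ^ 2 := by
      apply mul_le_mul_of_nonneg_right _ (sq_nonneg _)
      apply mul_le_mul_of_nonneg_right _ (sq_nonneg _)
      linarith
    simp only
    linarith
  have hmono := intervalIntegral.integral_mono_on hL.le hΦ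
    ((hFc.comp (continuous_const.mul continuous_id)).intervalIntegrable 0 L) hle
  have hint : ∫ t in (0:ℝ)..L, F (k * t) = k⁻¹ * ∫ x in (0:ℝ)..(2 * π), F x := by
    rw [intervalIntegral.integral_comp_mul_left F hk0.ne', mul_zero, hkL, smul_eq_mul]
  have hI : ∫ x in (0:ℝ)..(2 * π), F x
      = π * (k ^ 2 + (1 + K) * τ ^ 2 - (4 * ((1 + β) * w) ^ 2 + 4 * τ ^ 2)) := by
    have e1 : ∫ x in (0:ℝ)..(2 * π), cos x ^ 2 = π := by
      rw [integral_cos_sq]
      simp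
    have e2 : ∫ x in (0:ℝ)..(2 * π), sin x ^ 2 = π := by
      rw [integral_sin_sq]
      simp
    have e3 : ∫ x in (0:ℝ)..(2 * π), cos x = 0 := by
      rw [integral_cos]
      simp
    rw [hF]
    rw [intervalIntegral.integral_add, intervalIntegral.integral_add,
      intervalIntegral.integral_const_mul, intervalIntegral.integral_const_mul,
      intervalIntegral.integral_const_mul, intervalIntegral.integral_sub, e1, e2, e3]
    · ring
    all_goals
      apply Continuous.intervalIntegrable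
      fun_prop
  have hcomp : (F ∘ fun t => k * id t) = fun t => F (k * t) := rfl
  have hval : k⁻¹ * (π * (k ^ 2 + (1 + K) * τ ^ 2 - (4 * ((1 + β) * w) ^ 2 + 4 * τ ^ 2)))
      = (L / 2) * (k ^ 2 + (1 + K) * τ ^ 2 - (4 * ((1 + β) * w) ^ 2 + 4 * τ ^ 2)) := by
    have : k⁻¹ * π = L / 2 := by
      rw [inv_mul_eq_div, div_eq_iff hk0.ne']
      linarith
    rw [← mul_assoc, this]
  have hmono' : ∫ t in (0:ℝ)..L, Φ t ≤ ∫ t in (0:ℝ)..L, F (k * t) := hmono
  rw [hint, hI, hval] at hmono'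
  have hfin : (L / 2) * (k ^ 2 + (1 + K) * τ ^ 2 - (4 * ((1 + β) * w) ^ 2 + 4 * τ ^ 2))
      ≤ (L / 2) * (k ^ 2 - 4 * ((1 + β) * w) ^ 2 + K * τ ^ 2) := by
    apply mul_le_mul_of_nonneg_left _ (by linarith)
    nlinarith [sq_nonneg τ]
  linarith

end Pool.Agent.Helper10.SR
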